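import Pool.Agent.H65.CRG.TN
import Pool.Agent.H60.CRZ.SC

/-!
# Board crg_modules, row SC: the sum over the ideals prime to `q`
-/

set_option autoImplicit false

namespace Pool.Agent.H37.CRG.SCp

open NumberField NumberField.InfinitePlace Complex Filter Topology MeasureTheory
open Pool.Agent.H28.RC Pool.Agent.H25.HK Pool.Agent.H37.CV Pool.Agent.H65.CRZ Pool.Agent.H65.CRG
open Pool.Agent.H59.CV (one_le_nm nm_mul norm_tsum_le')
open Pool.Agent.H60.CRZ.SCp (summ_nm fin_le bound_q)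

section
variable {K : Type} [Field K] [NumberField K]

/-- the terms -/
noncomputable def tm (s₁ s₂ : ℂ) (Y : ℝ) (t : Ideal (𝓞 K)) : ℂ :=
  ((nm t : ℝ) : ℂ) ^ (-(s₁ + s₂)) * Vn (nrComplexPlaces K) s₁ s₂ (nm t ^ 2 / Y)

open scoped Classical in
/-- the terms with a condition -/
noncomputable def tp (p : Ideal (𝓞 K) → Prop) (s₁ s₂ : ℂ) (Y : ℝ) (t : NI K) : ℂ :=
  if p t.1 then tm s₁ s₂ Y t.1 else 0

theorem tp_pos {p : Ideal (𝓞 K) → Prop} {s₁ s₂ : ℂ} {Y : ℝ} {t : NI K} (h : p t.1) :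
    tp p s₁ s₂ Y t = tm s₁ s₂ Y t.1 := if_pos h

theorem tp_neg {p : Ideal (𝓞 K) → Prop} {s₁ s₂ : ℂ} {Y : ℝ} {t : NI K} (h : ¬ p t.1) :
    tp p s₁ s₂ Y t = 0 := if_neg h

theorem Sn_eq (m : Ideal (𝓞 K)) (s₁ s₂ : ℂ) (Y : ℝ) :
    Sn m s₁ s₂ Y = ∑' t : NI K, tp (fun t => t ⊔ m = ⊤) s₁ s₂ Y t := by
  classical
  have h1 : ∀ t : NI K, tp (fun t => t ⊔ m = ⊤) s₁ s₂ Y t =
      Set.indicator {t : NI K | t.1 ⊔ m = ⊤} (fun t => tm s₁ s₂ Y t.1) t := fun t => by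
    by_cases ht : t.1 ⊔ m = ⊤
    · rw [tp_pos ht, Set.indicator_of_mem (show t ∈ {t : NI K | t.1 ⊔ m = ⊤} from ht)]
    · rw [tp_neg ht, Set.indicator_of_notMem (show t ∉ {t : NI K | t.1 ⊔ m = ⊤} from ht)]
  rw [tsum_congr h1, ← tsum_subtype]
  let e : {t : Ideal (𝓞 K) // t ≠ ⊥ ∧ t ⊔ m = ⊤} ≃ {t : NI K | t.1 ⊔ m = ⊤} :=
    { toFun := fun t => ⟨⟨t.1, t.2.1⟩, t.2.2⟩
      invFun := fun t => ⟨t.1.1, t.1.2, t.2⟩
      left_inv := fun t => rfl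
      right_inv := fun t => rfl }
  exact (e.tsum_eq (fun t : {t : NI K | t.1 ⊔ m = ⊤} => tm s₁ s₂ Y t.1.1))

/-- sums over all nonzero ideals -/
theorem tp_key (B : ℝ) (s₁ s₂ : ℂ) (Y : ℝ) (p : Ideal (𝓞 K) → Prop)
    (h : ∀ X : Finset (Ideal (𝓞 K)),
    (∀ I ∈ X, I ≠ ⊥ ∧ p I) → ∑ I ∈ X, ‖tm s₁ s₂ Y I‖ ≤ B) :
    Summable (fun t : NI K => ‖tp p s₁ s₂ Y t‖) ∧ ‖∑' t : NI K, tp p s₁ s₂ Y t‖ ≤ B := by
  classical
  refine norm_tsum_le' _ B fun u => ?_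
  have h2 := h ((u.filter fun t => p t.1).image fun t => t.1) (by
    intro I hI
    obtain ⟨t, ht, rfl⟩ := Finset.mem_image.1 hI
    exact ⟨t.2, (Finset.mem_filter.1 ht).2⟩)
  rw [Finset.sum_image (fun a _ b _ hab => Subtype.ext hab), Finset.sum_filter] at h2
  refine le_trans (le_of_eq ?_) h2
  refine Finset.sum_congr rfl fun t _ => ?_
  by_cases ht : p t.1
  · rw [tp_pos ht, if_pos ht]
  · rw [tp_neg ht, if_neg ht, norm_zero]

end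

end Pool.Agent.H37.CRG.SCp

namespace Pool.Agent.H37.CRG

open NumberField NumberField.InfinitePlace Complex Filter Topology MeasureTheory
open Pool.Agent.H28.RC Pool.Agent.H25.HK Pool.Agent.H37.CV Pool.Agent.H65.CRZ Pool.Agent.H65.CRG
open Pool.Agent.H60.CRZ.SCp (summ_nm fin_le bound_q)
open Pool.Agent.H37.CRG.SCp

theorem pf_SC (h1 : Pool.Agent.H65.CRG.T_VG) (_ : Pool.Agent.H65.CRG.T_SB) :
    Pool.Agent.H65.CRG.T_SC := by
  classical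
  intro K _ _ δ a hδ hδ8 hδa
  obtain ⟨C, B, hC, hB, hV⟩ := h1 (nrComplexPlaces K) a (by linarith)
  set σ : ℝ := 1 - 2 * δ + 2 * a with hσ
  have hσ1 : 1 < σ := by
    rw [hσ]
    linarith
  set W : ℝ := ∑' I : NI K, nm I.1 ^ (-σ) with hW
  have hW0 : 0 ≤ W := tsum_nonneg fun I => Real.rpow_nonneg (Nat.cast_nonneg _) _
  refine ⟨C * (Module.finrank ℚ K * W + 1), B, by positivity, hB, ?_⟩
  intro q s₁ s₂ Y hq hs₁ hs₂ hY
  have hq0 : (0 : ℝ) < q := by exact_mod_cast hq.pos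
  rw [abs_le] at hs₁ hs₂
  set L : ℝ := (1 + |s₁.im| + |s₂.im|) ^ B with hL
  have hL0 : 0 ≤ L := Real.rpow_nonneg (by positivity) _
  have hY4 : 0 ≤ Y ^ a := Real.rpow_nonneg hY.le _
  set E : ℝ := C * L * Y ^ a with hE
  have hE0 : 0 ≤ E := by positivity
  have hterm : ∀ t : Ideal (𝓞 K), t ≠ ⊥ → ‖tm s₁ s₂ Y t‖ ≤ E * nm t ^ (-σ) := by
    intro t ht
    have hn : 1 ≤ nm t := Pool.Agent.H59.CV.one_le_nm ht
    have hn0 : 0 < nm t := by linarith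
    have h2 := (hV s₁ s₂ (by linarith) (by linarith) (by linarith) (by linarith)
      (nm t ^ 2 / Y) (by positivity)).2.2
    unfold tm
    rw [norm_mul, Complex.norm_cpow_eq_rpow_re_of_pos hn0, Complex.neg_re, Complex.add_re]
    have h3 : nm t ^ (-(s₁.re + s₂.re)) ≤ nm t ^ (-(1 - 2 * δ)) :=
      Real.rpow_le_rpow_of_exponent_le hn (by linarith)
    have h4 : (nm t ^ 2 / Y) ^ (-a) = Y ^ a * nm t ^ (-(2 * a)) := by
      rw [Real.div_rpow (by positivity) hY.le, Real.rpow_neg hY.le, div_inv_eq_mul, mul_comm]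
      congr 1
      rw [← Real.rpow_natCast, ← Real.rpow_mul hn0.le]
      congr 1
      push_cast
      ring
    rw [h4] at h2
    calc nm t ^ (-(s₁.re + s₂.re)) * ‖Vn (nrComplexPlaces K) s₁ s₂ (nm t ^ 2 / Y)‖
        ≤ nm t ^ (-(1 - 2 * δ)) * (C * L * (Y ^ a * nm t ^ (-(2 * a)))) :=
          mul_le_mul h3 h2 (norm_nonneg _) (Real.rpow_nonneg hn0.le _)
      _ = E * (nm t ^ (-(1 - 2 * δ)) * nm t ^ (-(2 * a))) := by
          rw [hE]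
          ring
      _ = _ := by
          rw [← Real.rpow_add hn0]
          congr 2
          rw [hσ]
          ring
  have hA := tp_key (K := K) (E * W) s₁ s₂ Y (fun t => t ⊔ ⊤ = ⊤) (by
    intro X hX
    calc ∑ I ∈ X, ‖tm s₁ s₂ Y I‖ ≤ ∑ I ∈ X, E * nm I ^ (-σ) :=
          Finset.sum_le_sum fun I hI => hterm I (hX I hI).1
      _ = E * ∑ I ∈ X, nm I ^ (-σ) := by rw [Finset.mul_sum]
      _ ≤ _ := mul_le_mul_of_nonneg_left (fin_le hσ1 X fun I hI => (hX I hI).1) hE0)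
  have hBd := tp_key (K := K) (E * (Module.finrank ℚ K * ((q : ℝ) ^ (-σ) * W))) s₁ s₂ Y
    (fun t => t ⊔ qi K q ≠ ⊤) (by
    intro X hX
    calc ∑ I ∈ X, ‖tm s₁ s₂ Y I‖ ≤ ∑ I ∈ X, E * nm I ^ (-σ) :=
          Finset.sum_le_sum fun I hI => hterm I (hX I hI).1
      _ = E * ∑ I ∈ X, nm I ^ (-σ) := by rw [Finset.mul_sum]
      _ ≤ _ := mul_le_mul_of_nonneg_left (bound_q hσ1 hq X hX) hE0)
  have hdiff : Sn (qi K q) s₁ s₂ Y - Sn (K := K) ⊤ s₁ s₂ Y =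
      -∑' t : NI K, tp (fun t => t ⊔ qi K q ≠ ⊤) s₁ s₂ Y t := by
    rw [Sn_eq, Sn_eq, ← neg_sub, neg_inj]
    have hsub : Summable (fun t : NI K => tp (fun t => t ⊔ qi K q = ⊤) s₁ s₂ Y t) := by
      refine Summable.of_norm (hA.1.of_nonneg_of_le (fun _ => norm_nonneg _) fun t => ?_)
      rw [tp_pos (p := fun t => t ⊔ ⊤ = ⊤) (sup_top_eq t.1)]
      by_cases ht : t.1 ⊔ qi K q = ⊤
      · rw [tp_pos ht]
      · rw [tp_neg ht, norm_zero]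
        exact norm_nonneg _
    rw [← (Summable.of_norm hA.1).tsum_sub hsub]
    refine tsum_congr fun t => ?_
    rw [tp_pos (p := fun t => t ⊔ ⊤ = ⊤) (sup_top_eq t.1)]
    by_cases ht : t.1 ⊔ qi K q = ⊤
    · rw [tp_pos (p := fun t => t ⊔ qi K q = ⊤) ht,
        tp_neg (p := fun t => t ⊔ qi K q ≠ ⊤) (not_not.2 ht), sub_self]
    · rw [tp_neg (p := fun t => t ⊔ qi K q = ⊤) ht,
        tp_pos (p := fun t => t ⊔ qi K q ≠ ⊤) ht, sub_zero]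
  rw [hdiff, norm_neg]
  refine hBd.2.trans ?_
  have hq8 : 0 ≤ (q : ℝ) ^ (-σ) := Real.rpow_nonneg hq0.le _
  have h9 : C * (Module.finrank ℚ K * W + 1) * L * Y ^ a * (q : ℝ) ^ (-σ) =
      E * (Module.finrank ℚ K * ((q : ℝ) ^ (-σ) * W)) +
        E * (q : ℝ) ^ (-σ) := by
    rw [hE]
    ring
  rw [h9]
  have := mul_nonneg hE0 hq8
  linarith

end Pool.Agent.H37.CRG
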